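import Pool.Agent.Lib.MP_bdaa83_gt.Proofs

open Polynomial

namespace Pool.Agent.Results.MP_bdaa83_gt.FreePeriod

open Pool.Agent.Lib.MP_bdaa83_gt

/-- `D` is the normalized Alexander polynomial of an L-space knot which is freely periodic of period
`p ^ r`, `F` is the normalized Alexander polynomial of the quotient knot in the quotient lens space,
and `hH` is Hartley's factorization. If `F` is of L-space form too, then `F = D` and `D` is a product
of cyclotomic polynomials. -/
theorem result (p : ℕ) (hp : p.Prime) (r : ℕ) (hr : 0 < r) (D F : ℤ[X]) (hD : IsLSpaceForm D)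
    (hF : IsLSpaceForm F) (w : ℂ) (hw : IsPrimitiveRoot w (p ^ r))
    (hH : ∀ z : ℂ, aeval (z ^ p ^ r) D = ∏ i ∈ Finset.range (p ^ r), aeval (w ^ i * z) F) :
    D = F ∧ IsProductOfCyclotomics D :=
  haveI := Fact.mk hp
  cyclotomic_of_free r hr D F hD hF w hw hH

end Pool.Agent.Results.MP_bdaa83_gt.FreePeriod
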