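import Pool.Agent.Lib.MP_bdaa83_gt.Proofs

open Polynomial

namespace Pool.Agent.Results.MP_bdaa83_gt.LSpaceQuotient

open Pool.Agent.Lib.MP_bdaa83_gt

/-- If the quotient knot is an L-space knot too, then the Alexander polynomial `D` is a product of
cyclotomic polynomials, and it is the one of a cable: `D(t) = g(t ^ q) T(t)` with `T` the Alexander
polynomial of the torus knot `T(q, l)`. -/
theorem result (p : ℕ) (hp : p.Prime) (r l : ℕ) (hr : 0 < r) (hl : 0 < l) (hcop : Nat.Coprime p l)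
    (D g : ℤ[X]) (hD : IsLSpaceForm D) (hg : IsLSpaceForm g) (hdvd : g ∣ D)
    (hM : D.map (Int.castRingHom (ZMod p)) = (g.map (Int.castRingHom (ZMod p))) ^ p ^ r *
      (∑ i ∈ Finset.range l, X ^ i) ^ (p ^ r - 1)) :
    D * ((X ^ p ^ r - 1) * (X ^ l - 1)) =
      expand ℤ (p ^ r) g * ((X ^ (p ^ r * l) - 1) * (X - 1)) ∧ IsProductOfCyclotomics D :=
  haveI := Fact.mk hp
  cyclotomic_of_periodic r l hr hl hcop D g hD hg hdvd hM

end Pool.Agent.Results.MP_bdaa83_gt.LSpaceQuotient
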