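import Pool.Agent.Lib.MP_bdaa83_gt.Proofs

open Polynomial

namespace Pool.Agent.Results.MP_bdaa83_gt.LargePrimePeriod

open Pool.Agent.Lib.MP_bdaa83_gt

/-- If the prime `p` is larger than `2 ^ (deg g + 1) + 1`, where `g` is the Alexander polynomial of
the quotient knot, then the Alexander polynomial `D` of the periodic L-space knot is a product of
cyclotomic polynomials; nothing is assumed about the quotient knot. -/
theorem result (p : ℕ) (hp : p.Prime) (r l : ℕ) (hr : 0 < r) (hl : 0 < l) (hcop : Nat.Coprime p l)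
    (D g : ℤ[X]) (hD : IsLSpaceForm D) (hdvd : g ∣ D) (hlarge : 2 ^ (g.natDegree + 1) + 1 < p)
    (hM : D.map (Int.castRingHom (ZMod p)) = (g.map (Int.castRingHom (ZMod p))) ^ p ^ r *
      (∑ i ∈ Finset.range l, X ^ i) ^ (p ^ r - 1)) :
    D * ((X ^ p ^ r - 1) * (X ^ l - 1)) =
      expand ℤ (p ^ r) g * ((X ^ (p ^ r * l) - 1) * (X - 1)) ∧ IsProductOfCyclotomics D :=
  haveI := Fact.mk hp
  cyclotomic_of_large_period r l hr hl hcop D g hD hdvd hlarge hM

end Pool.Agent.Results.MP_bdaa83_gt.LargePrimePeriod
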