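import Pool.Agent.Lib.MP_bdaa83_gt.Proofs

open Polynomial

namespace Pool.Agent.Results.MP_bdaa83_gt.PeriodStructure

open Pool.Agent.Lib.MP_bdaa83_gt

/-- Structure theorem. `D` is the normalized Alexander polynomial of an L-space knot `K` of period
`q = p ^ r`, `g` is the normalized Alexander polynomial of the quotient knot, `l` is its linking
number with the quotient axis, and `hM` is Murasugi's congruence. Then
`D(t) = f(t ^ q) (t ^ (q l) - 1) (t - 1) / ((t ^ q - 1) (t ^ l - 1))`. -/
theorem result (p : ℕ) (hp : p.Prime) (r l : ℕ) (hl : 0 < l) (hcop : Nat.Coprime p l)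
    (D g : ℤ[X]) (hD : IsLSpaceForm D)
    (hM : D.map (Int.castRingHom (ZMod p)) = (g.map (Int.castRingHom (ZMod p))) ^ p ^ r *
      (∑ i ∈ Finset.range l, X ^ i) ^ (p ^ r - 1)) :
    ∃ f : ℤ[X], IsLSpaceForm f ∧
      f.map (Int.castRingHom (ZMod p)) = g.map (Int.castRingHom (ZMod p)) ∧
      D * ((X ^ p ^ r - 1) * (X ^ l - 1)) =
        expand ℤ (p ^ r) f * ((X ^ (p ^ r * l) - 1) * (X - 1)) :=
  haveI := Fact.mk hp
  structure_theorem r l hl hcop D g hD hM

end Pool.Agent.Results.MP_bdaa83_gt.PeriodStructure
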